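import Pool.Agent.H592.TR.Stm

/-!
# TR6: the main term of a box
-/

set_option autoImplicit false

open Finset Filter Topology

namespace Pool.Agent.H592.TR

namespace T6N

open Pool.Agent.H592.TD (In)

/-- the odd parts -/
noncomputable def OO (X α β : ℝ) (i : ℕ) : Finset ℕ :=
  (Icc 1 ⌊X ^ β⌋₊).filter (fun m => 2 ^ i * m ∈ In X α β ∧ Odd m)

/-- the weight -/
noncomputable def w (m : ℕ) : ℝ := (Nat.totient m : ℝ) / (m : ℝ) ^ 2

/-- the coefficient -/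
noncomputable def c (d : ℕ) : ℝ := if Odd d then ((ArithmeticFunction.moebius d : ℤ) : ℝ) else 0

theorem w_nonneg (m : ℕ) : 0 ≤ w m := by
  unfold w
  positivity

theorem VV_eq (X α β : ℝ) (d i : ℕ) :
    VV X α β d i = ∑ m ∈ OO X α β i, if d ∣ m then w m else 0 := by
  unfold VV OO
  rw [← sum_filter, filter_filter]
  refine sum_congr ?_ fun m _ => rfl
  refine filter_congr fun m _ => ?_
  rw [and_assoc]

theorem VV_nonneg (X α β : ℝ) (d i : ℕ) : 0 ≤ VV X α β d i := by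
  unfold VV
  exact sum_nonneg fun m _ => by positivity

theorem mem_OO {X α β : ℝ} {i m : ℕ} : m ∈ OO X α β i ↔ 1 ≤ m ∧ 2 ^ i * m ∈ In X α β ∧ Odd m := by
  unfold OO
  rw [mem_filter, mem_Icc]
  constructor
  · rintro ⟨⟨h1, -⟩, h2⟩
    exact ⟨h1, h2⟩
  · rintro ⟨h1, h2, h3⟩
    refine ⟨⟨h1, ?_⟩, h2, h3⟩
    have h4 := (mem_Ioc.1 h2).2
    exact (Nat.le_mul_of_pos_left m (by positivity)).trans h4

theorem VV_zero_i {X α β : ℝ} {d i : ℕ} (h : ⌊X ^ β⌋₊ ≤ i) : VV X α β d i = 0 := by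
  rw [VV_eq]
  refine sum_eq_zero fun m hm => ?_
  exfalso
  obtain ⟨h1, h2, -⟩ := mem_OO.1 hm
  have h3 := (mem_Ioc.1 h2).2
  have h4 : i < 2 ^ i := Nat.lt_two_pow_self
  have h5 : 2 ^ i ≤ 2 ^ i * m := Nat.le_mul_of_pos_right _ h1
  omega

theorem VV_zero_d {X α β : ℝ} {d i : ℕ} (h : ⌊X ^ β⌋₊ < d) : VV X α β d i = 0 := by
  rw [VV_eq]
  refine sum_eq_zero fun m hm => ?_
  rw [if_neg]
  intro hd
  obtain ⟨h1, h2, -⟩ := mem_OO.1 hm
  have h3 := (mem_Ioc.1 h2).2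
  have h4 := Nat.le_of_dvd h1 hd
  have h5 : m ≤ 2 ^ i * m := Nat.le_mul_of_pos_left m (by positivity)
  omega

theorem sum_two (X α β : ℝ) (F : ℕ → ℝ) (N : ℕ) (hN : ⌊X ^ β⌋₊ < N) :
    ∑ m ∈ In X α β, F m = ∑ i ∈ range N, ∑ m ∈ OO X α β i, F (2 ^ i * m) := by
  have h1 : ∀ m ∈ In X α β, m.factorization 2 ∈ range N := by
    intro m hm
    have h2 := mem_Ioc.1 hm
    have h3 : 2 ^ m.factorization 2 ∣ m := Nat.ordProj_dvd m 2
    have h4 := Nat.le_of_dvd (by omega) h3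
    have h5 : m.factorization 2 < 2 ^ m.factorization 2 := Nat.lt_two_pow_self
    rw [mem_range]
    omega
  rw [← sum_fiberwise_of_maps_to h1 F]
  refine sum_congr rfl fun i _ => ?_
  refine sum_nbij' (fun m => m / 2 ^ i) (fun m => 2 ^ i * m) ?_ ?_ ?_ ?_ ?_
  · intro m hm
    rw [mem_filter] at hm
    obtain ⟨h2, h3⟩ := hm
    have h4 := mem_Ioc.1 h2
    have hm0 : m ≠ 0 := by omega
    have h5 : 2 ^ i * (m / 2 ^ i) = m := by
      rw [← h3]
      exact Nat.ordProj_mul_ordCompl_eq_self m 2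
    have h6 : ¬ 2 ∣ m / 2 ^ i := by
      rw [← h3]
      exact Nat.not_dvd_ordCompl Nat.prime_two hm0
    rw [mem_OO, h5]
    refine ⟨?_, h2, ?_⟩
    · rcases Nat.eq_zero_or_pos (m / 2 ^ i) with h7 | h7
      · exact absurd (by rw [h7]; exact dvd_zero 2) h6
      · exact h7
    · rw [← Nat.not_even_iff_odd, even_iff_two_dvd]
      exact h6
  · intro m hm
    obtain ⟨h2, h3, h4⟩ := mem_OO.1 hm
    rw [mem_filter]
    refine ⟨h3, ?_⟩
    have h5 : ¬ 2 ∣ m := by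
      rw [← even_iff_two_dvd, Nat.not_even_iff_odd]
      exact h4
    rw [Nat.factorization_mul (by positivity) (by omega), Nat.Prime.factorization_pow Nat.prime_two,
      Finsupp.add_apply, Finsupp.single_eq_same, Nat.factorization_eq_zero_of_not_dvd h5, add_zero]
  · intro m hm
    rw [mem_filter] at hm
    rw [← hm.2]
    exact Nat.ordProj_mul_ordCompl_eq_self m 2
  · intro m _
    exact Nat.mul_div_cancel_left m (by positivity)
  · intro m hm
    rw [mem_filter] at hm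
    rw [← hm.2, Nat.ordProj_mul_ordCompl_eq_self]

/-- the indicator of coprimality -/
theorem cop (m n N : ℕ) (hm : 1 ≤ m) (hmo : Odd m) (hN : m < N) :
    (if Nat.Coprime m n then (1 : ℝ) else 0) =
      ∑ d ∈ range N, c d * ((if d ∣ m then 1 else 0) * (if d ∣ n then 1 else 0)) := by
  have h1 : ∀ d ∈ range N, c d * ((if d ∣ m then (1 : ℝ) else 0) * (if d ∣ n then 1 else 0)) =
      if d ∣ m ∧ d ∣ n then ((ArithmeticFunction.moebius d : ℤ) : ℝ) else 0 := by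
    intro d _
    by_cases h2 : d ∣ m
    · have h3 : Odd d := Odd.of_dvd_nat hmo h2
      by_cases h4 : d ∣ n
      · rw [if_pos h2, if_pos h4, if_pos ⟨h2, h4⟩, mul_one, mul_one]
        unfold c
        rw [if_pos h3]
      · rw [if_neg h4, if_neg (fun h : d ∣ m ∧ d ∣ n => h4 h.2), mul_zero, mul_zero]
    · rw [if_neg h2, if_neg (fun h : d ∣ m ∧ d ∣ n => h2 h.1), zero_mul, mul_zero]
  rw [sum_congr rfl h1, ← sum_filter]
  have h2 : (range N).filter (fun d => d ∣ m ∧ d ∣ n) = (Nat.gcd m n).divisors := by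
    ext d
    rw [mem_filter, mem_range, Nat.mem_divisors, Nat.dvd_gcd_iff]
    constructor
    · rintro ⟨-, h3⟩
      exact ⟨h3, (Nat.gcd_pos_of_pos_left n hm).ne'⟩
    · rintro ⟨h3, -⟩
      exact ⟨(Nat.le_of_dvd hm h3.1).trans_lt hN, h3⟩
  rw [h2]
  have h3 : ∑ d ∈ (Nat.gcd m n).divisors, ArithmeticFunction.moebius d =
      if Nat.gcd m n = 1 then 1 else 0 := by
    rw [← ArithmeticFunction.coe_mul_zeta_apply, ArithmeticFunction.moebius_mul_coe_zeta,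
      ArithmeticFunction.one_apply]
  have h4 : ∑ d ∈ (Nat.gcd m n).divisors, ((ArithmeticFunction.moebius d : ℤ) : ℝ) =
      ((if Nat.gcd m n = 1 then 1 else 0 : ℤ) : ℝ) := by
    rw [← h3]
    push_cast
    rfl
  rw [h4]
  unfold Nat.Coprime
  split_ifs <;> simp

theorem main_id (h2 : T2) {u v : ℤ} (hA : Adm u v) (X β₁ β₂ γ₁ γ₂ : ℝ) (N : ℕ)
    (hN1 : ⌊X ^ β₂⌋₊ < N) (hN2 : ⌊X ^ γ₂⌋₊ < N) :
    ∑ m ∈ In X β₁ β₂, ∑ n ∈ In X γ₁ γ₂, RR u v m n =
      ∑ i ∈ range N, ∑ j ∈ range N, ∑ d ∈ range N,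
        RR u v (2 ^ i) (2 ^ j) * (c d * (VV X β₁ β₂ d i * VV X γ₁ γ₂ d j)) := by
  rw [sum_two X β₁ β₂ _ N hN1]
  refine sum_congr rfl fun i _ => ?_
  have h1 : ∀ m ∈ OO X β₁ β₂ i, ∑ n ∈ In X γ₁ γ₂, RR u v (2 ^ i * m) n =
      ∑ j ∈ range N, ∑ n ∈ OO X γ₁ γ₂ j, RR u v (2 ^ i * m) (2 ^ j * n) := fun m _ =>
    sum_two X γ₁ γ₂ _ N hN2
  rw [sum_congr rfl h1, sum_comm]
  refine sum_congr rfl fun j _ => ?_
  -- the right side
  have h3 : ∀ d ∈ range N, RR u v (2 ^ i) (2 ^ j) * (c d * (VV X β₁ β₂ d i * VV X γ₁ γ₂ d j)) =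
      ∑ m ∈ OO X β₁ β₂ i, ∑ n ∈ OO X γ₁ γ₂ j, RR u v (2 ^ i) (2 ^ j) *
        (w m * w n * (c d * ((if d ∣ m then 1 else 0) * (if d ∣ n then 1 else 0)))) := by
    intro d _
    rw [VV_eq, VV_eq, sum_mul_sum, mul_sum, mul_sum]
    refine sum_congr rfl fun m _ => ?_
    rw [mul_sum, mul_sum]
    refine sum_congr rfl fun n _ => ?_
    split_ifs <;> ring
  rw [sum_congr rfl h3]
  symm
  rw [sum_comm]
  refine sum_congr rfl fun m hm => ?_
  rw [sum_comm]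
  refine sum_congr rfl fun n hn => ?_
  symm
  obtain ⟨a1, a2, a3⟩ := mem_OO.1 hm
  obtain ⟨b1, b2, b3⟩ := mem_OO.1 hn
  have hmN : m < N := by
    have h4 := (mem_Ioc.1 a2).2
    have h5 : m ≤ 2 ^ i * m := Nat.le_mul_of_pos_left m (by positivity)
    omega
  rw [← mul_sum, ← mul_sum, ← cop m n N a1 a3 hmN, h2 u v hA i j m n a3 b3]
  unfold w
  split_ifs <;> ring

end T6N

open T6N in
theorem t6 : T2 → T3 → T4 → T5 → T6 := by
  intro h2 h3 h4 h5 u v hA β₁ β₂ γ₁ γ₂ hβ1 hβ2 hγ1 hγ2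
  obtain ⟨h31, h32⟩ := h3 u v hA
  obtain ⟨hb1, C1, hC1, hb2⟩ := h4 β₁ β₂ hβ1 hβ2
  obtain ⟨hc1, C2, hC2, hc2⟩ := h4 γ₁ γ₂ hγ1 hγ2
  obtain ⟨-, h52⟩ := h5
  -- the terms
  obtain ⟨f, hf⟩ : ∃ f : ℝ → (ℕ × ℕ) × ℕ → ℝ, ∀ X k, f X k = RR u v (2 ^ k.1.1) (2 ^ k.1.2) *
      (c k.2 * (VV X β₁ β₂ k.2 k.1.1 * VV X γ₁ γ₂ k.2 k.1.2)) / Real.log X ^ 2 :=
    ⟨_, fun _ _ => rfl⟩
  obtain ⟨g, hg⟩ : ∃ g : (ℕ × ℕ) × ℕ → ℝ, ∀ k, g k = RR u v (2 ^ k.1.1) (2 ^ k.1.2) *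
      ((β₂ - β₁) * (γ₂ - γ₁) * (c k.2 * kap k.2 ^ 2)) := ⟨_, fun _ => rfl⟩
  -- the identity
  have hid : ∀ X : ℝ, (∑ m ∈ Pool.Agent.H592.TD.In X β₁ β₂,
      ∑ n ∈ Pool.Agent.H592.TD.In X γ₁ γ₂, RR u v m n) / Real.log X ^ 2 = ∑' k, f X k := by
    intro X
    obtain ⟨N, hN⟩ : ∃ N : ℕ, N = ⌊X ^ β₂⌋₊ + ⌊X ^ γ₂⌋₊ + 1 := ⟨_, rfl⟩
    rw [tsum_eq_sum (s := (range N ×ˢ range N) ×ˢ range N)]
    · rw [sum_product, sum_product, main_id h2 hA X β₁ β₂ γ₁ γ₂ N (by omega) (by omega), sum_div]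
      refine sum_congr rfl fun i _ => ?_
      rw [sum_div]
      refine sum_congr rfl fun j _ => ?_
      rw [sum_div]
      refine sum_congr rfl fun d _ => ?_
      rw [hf]
    · rintro ⟨⟨i, j⟩, d⟩ hk
      rw [hf]
      simp only [mem_product, mem_range, not_and, not_lt] at hk
      by_cases hi : i < N
      · by_cases hj : j < N
        · have hd := hk ⟨hi, hj⟩
          rw [VV_zero_d (X := X) (α := β₁) (β := β₂) (d := d) (i := i) (by omega)]
          simp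
        · rw [VV_zero_i (X := X) (α := γ₁) (β := γ₂) (d := d) (i := j) (by omega)]
          simp
      · rw [VV_zero_i (X := X) (α := β₁) (β := β₂) (d := d) (i := i) (by omega)]
        simp
  -- the limit
  have hR : Summable fun p : ℕ × ℕ => RR u v (2 ^ p.1) (2 ^ p.2) := h32.summable
  have hck : ∀ d, c d * kap d ^ 2 =
      if Odd d then ((ArithmeticFunction.moebius d : ℤ) : ℝ) * kap d ^ 2 else 0 := by
    intro d
    unfold c
    split_ifs <;> simp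
  have h53 : HasSum (fun d : ℕ => c d * kap d ^ 2) (4 / 11 * CC) := by
    simp only [hck]
    exact h52
  have hlim : ∑' k, g k = (β₂ - β₁) * (γ₂ - γ₁) * CC := by
    have h6 := (h53.mul_left ((β₂ - β₁) * (γ₂ - γ₁)))
    have h7 := tsum_mul_tsum_of_summable_norm (f := fun p : ℕ × ℕ => RR u v (2 ^ p.1) (2 ^ p.2))
      (g := fun d : ℕ => (β₂ - β₁) * (γ₂ - γ₁) * (c d * kap d ^ 2)) hR.norm h6.summable.norm
    have h8 : ∑' k, g k = ∑' z : (ℕ × ℕ) × ℕ, RR u v (2 ^ z.1.1) (2 ^ z.1.2) *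
        ((β₂ - β₁) * (γ₂ - γ₁) * (c z.2 * kap z.2 ^ 2)) := tsum_congr hg
    rw [h8, ← h7, h32.tsum_eq, h6.tsum_eq]
    ring
  -- the bound
  obtain ⟨bd, hbd⟩ : ∃ bd : (ℕ × ℕ) × ℕ → ℝ, ∀ k, bd k =
      ((1 / 2 : ℝ) ^ k.1.1 * (1 / 2 : ℝ) ^ k.1.2) * (3 / 2 * C1 * C2 * (1 / (k.2 : ℝ) ^ 2)) :=
    ⟨_, fun _ => rfl⟩
  have hsum : Summable bd := by
    have g1 : Summable fun i : ℕ => (1 / 2 : ℝ) ^ i := summable_geometric_two
    have g2 : Summable fun p : ℕ × ℕ => (1 / 2 : ℝ) ^ p.1 * (1 / 2 : ℝ) ^ p.2 :=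
      g1.mul_of_nonneg g1 (fun _ => by positivity) (fun _ => by positivity)
    have g3 : Summable fun d : ℕ => 3 / 2 * C1 * C2 * (1 / (d : ℝ) ^ 2) :=
      (Real.summable_one_div_nat_pow.2 (by norm_num)).mul_left _
    have g4 := g2.mul_of_nonneg g3 (fun _ => by positivity) (fun _ => by positivity)
    exact g4.congr fun k => (hbd k).symm
  have hdom : ∀ᶠ X : ℝ in atTop, ∀ k, ‖f X k‖ ≤ bd k := by
    filter_upwards [eventually_ge_atTop (2 : ℝ)] with X hX k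
    obtain ⟨⟨i, j⟩, d⟩ := k
    rw [hf, hbd]
    simp only
    have hlog : 0 < Real.log X := Real.log_pos (by linarith)
    have hV1 := VV_nonneg X β₁ β₂ d i
    have hV2 := VV_nonneg X γ₁ γ₂ d j
    by_cases hd : Odd d
    · have hd1 : 1 ≤ d := hd.pos
      have hd0 : (0 : ℝ) < d := by exact_mod_cast hd1
      have e1 := hb2 X hX d i hd1
      have e2 := hc2 X hX d j hd1
      have e3 : |c d| ≤ 1 := by
        unfold c
        rw [if_pos hd]
        have := ArithmeticFunction.abs_moebius_le_one (n := d)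
        exact_mod_cast this
      obtain ⟨e4, e5⟩ := h31 i j
      rw [Real.norm_eq_abs, abs_div, abs_mul, abs_mul, abs_mul, abs_of_nonneg e4,
        abs_of_nonneg hV1, abs_of_nonneg hV2, abs_of_nonneg (by positivity : 0 ≤ Real.log X ^ 2),
        div_le_iff₀ (by positivity)]
      have e6 : VV X β₁ β₂ d i * VV X γ₁ γ₂ d j ≤
          (C1 / d * Real.log X) * (C2 / d * Real.log X) :=
        mul_le_mul e1 e2 hV2 (by positivity)
      have e7 : |c d| * (VV X β₁ β₂ d i * VV X γ₁ γ₂ d j) ≤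
          1 * ((C1 / d * Real.log X) * (C2 / d * Real.log X)) :=
        mul_le_mul e3 e6 (mul_nonneg hV1 hV2) (by norm_num)
      have e8 : RR u v (2 ^ i) (2 ^ j) * (|c d| * (VV X β₁ β₂ d i * VV X γ₁ γ₂ d j)) ≤
          (3 / 2 / 2 ^ (i + j)) * (1 * ((C1 / d * Real.log X) * (C2 / d * Real.log X))) :=
        mul_le_mul e5 e7 (by positivity) (by positivity)
      refine e8.trans (le_of_eq ?_)
      rw [pow_add, one_div_pow, one_div_pow]
      field_simp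
    · have e1 : c d = 0 := by
        unfold c
        rw [if_neg hd]
      rw [e1, zero_mul, mul_zero, zero_div, norm_zero]
      positivity
  have hpt : ∀ k, Tendsto (fun X => f X k) atTop (𝓝 (g k)) := by
    rintro ⟨⟨i, j⟩, d⟩
    simp only [hf, hg]
    by_cases hd : Odd d ∧ Squarefree d
    · have e1 := hb1 d i hd.1 hd.2
      have e2 := hc1 d j hd.1 hd.2
      have e3 := ((e1.mul e2).const_mul (c d)).const_mul (RR u v (2 ^ i) (2 ^ j))
      have e4 : RR u v (2 ^ i) (2 ^ j) * (c d * ((β₂ - β₁) * kap d * ((γ₂ - γ₁) * kap d))) =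
          RR u v (2 ^ i) (2 ^ j) * ((β₂ - β₁) * (γ₂ - γ₁) * (c d * kap d ^ 2)) := by ring
      rw [e4] at e3
      refine e3.congr fun X => ?_
      ring
    · have e1 : c d = 0 := by
        unfold c
        by_cases h6 : Odd d
        · rw [if_pos h6]
          have h7 : ¬ Squarefree d := fun h => hd ⟨h6, h⟩
          rw [ArithmeticFunction.moebius_eq_zero_of_not_squarefree h7]
          simp
        · rw [if_neg h6]
      simp only [e1, zero_mul, mul_zero, zero_div]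
      exact tendsto_const_nhds
  have hfin := tendsto_tsum_of_dominated_convergence hsum hpt hdom
  rw [hlim] at hfin
  exact hfin.congr fun X => (hid X).symm

end Pool.Agent.H592.TR
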